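import Mathlib

/-!
Project CR (helper236), job COV: from windows over dyadic ranges to all windows (the general part).
-/

set_option autoImplicit false

namespace Pool.Agent.Q95.CR

open Finset Filter

/-- Dyadic decomposition. -/
lemma dya (g : ℕ → ℝ) (hg : ∀ m, 0 ≤ g m) (a x : ℕ) (ha : 2 ≤ a) (B : ℝ) (hB : 0 ≤ B)
    (h : ∀ x' : ℕ, a < 2 * x' → x' ≤ x → ∑ m ∈ Finset.Ioc x' (2 * x'), g m ≤ x' * B) :
    ∀ t : ℕ, t ≤ x → ∑ m ∈ Finset.Ioc a t, g m ≤ 2 * t * B := by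
  intro t
  induction t using Nat.strong_induction_on with
  | _ t ih =>
    intro ht
    by_cases hta : t ≤ a
    · rw [Finset.Ioc_eq_empty (by omega), Finset.sum_empty]
      positivity
    · push Not at hta
      obtain ⟨x', hx'⟩ : ∃ x', x' = (t + 1) / 2 := ⟨_, rfl⟩
      have h1 : x' < t := by omega
      have h2 : t ≤ 2 * x' := by omega
      have h3 := ih x' h1 (by omega)
      have h4 := h x' (by omega) (by omega)
      have h5 : ∑ m ∈ Finset.Ioc a t, g m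
          ≤ ∑ m ∈ Finset.Ioc a x', g m + ∑ m ∈ Finset.Ioc x' (2 * x'), g m := by
        have h6 : Finset.Ioc a t ⊆ Finset.Ioc a x' ∪ Finset.Ioc x' (2 * x') := by
          intro m hm
          simp only [Finset.mem_union, Finset.mem_Ioc] at hm ⊢
          omega
        refine (Finset.sum_le_sum_of_subset_of_nonneg h6 fun m _ _ => hg m).trans ?_
        rw [← Finset.sum_union_inter]
        have : 0 ≤ ∑ m ∈ Finset.Ioc a x' ∩ Finset.Ioc x' (2 * x'), g m :=
          Finset.sum_nonneg fun m _ => hg m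
        linarith
      have h7 : (3 : ℝ) * x' ≤ 2 * t := by
        have : 3 * x' ≤ 2 * t := by omega
        exact_mod_cast this
      have h8 : 3 * (x' : ℝ) * B ≤ 2 * t * B := mul_le_mul_of_nonneg_right h7 hB
      linarith

theorem cov0 (U x : ℕ) (h : ℕ → ℂ) (Y : ℕ) (L : ℝ) (hL : 2 ≤ L)
    (hLC : L ^ (U + 8) ≤ x)
    (hh : ∀ n ≤ x, ‖h n‖ ≤ L ^ 2) (hYx : (Y : ℝ) * L ^ (U + 8) ≤ x)
    (hdy : ∀ x' : ℕ, (x : ℝ) ≤ x' * L ^ (U + 8) → x' ≤ x →
      ∑ m ∈ Finset.Ioc x' (2 * x'), ‖∑ n ∈ Finset.Ioc m (m + Y), h n‖ ^ 2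
        ≤ x' * (Y : ℝ) ^ 2 / L ^ (U + 2)) :
    ∑ m ∈ Finset.Icc 1 (x + Y), ‖∑ n ∈ Finset.Ioc (m - Y) m, (if n ≤ x then h n else 0)‖ ^ 2
      ≤ x * (Y : ℝ) ^ 2 / L ^ U := by
  have hL0 : 0 < L := by linarith
  obtain ⟨m0, hm0⟩ : ∃ m0, m0 = ⌊(x : ℝ) / L ^ (U + 6)⌋₊ := ⟨_, rfl⟩
  have hm1 : (m0 : ℝ) ≤ x / L ^ (U + 6) := by
    rw [hm0]
    exact Nat.floor_le (by positivity)
  have hm2 : (x : ℝ) / L ^ (U + 6) < m0 + 1 := by
    rw [hm0]
    exact Nat.lt_floor_add_one _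
  have hL6 : (1 : ℝ) ≤ L ^ (U + 6) := one_le_pow₀ (by linarith)
  have hm0x : m0 ≤ x := by
    have : (m0 : ℝ) ≤ x := hm1.trans (div_le_self (by positivity) hL6)
    exact_mod_cast this
  have hL8 : L ^ (U + 8) = L ^ (U + 6) * L ^ 2 := by rw [← pow_add]
  have hL2 : 4 ≤ L ^ 2 := by nlinarith
  have hL60 : 0 < L ^ (U + 6) := by positivity
  have hx6 : (x : ℝ) < (m0 + 1) * L ^ (U + 6) := by
    rwa [div_lt_iff₀ hL60] at hm2
  -- the lower end
  have ha0 : 2 * (x : ℝ) + Y * L ^ (U + 8) ≤ m0 * L ^ (U + 8) := by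
    have h1 : (x : ℝ) * L ^ 2 ≤ (m0 + 1) * L ^ (U + 6) * L ^ 2 :=
      mul_le_mul_of_nonneg_right hx6.le (by positivity)
    have h2 : ((m0 : ℝ) + 1) * L ^ (U + 6) * L ^ 2 = m0 * L ^ (U + 8) + L ^ (U + 8) := by
      rw [hL8]
      ring
    have h3 : (x : ℝ) * 4 ≤ x * L ^ 2 := mul_le_mul_of_nonneg_left hL2 (by positivity)
    linarith
  have hL80 : 0 < L ^ (U + 8) := by positivity
  have hYm : Y ≤ m0 := by
    have h1 : (Y : ℝ) * L ^ (U + 8) ≤ m0 * L ^ (U + 8) := by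
      have : (0 : ℝ) ≤ x := Nat.cast_nonneg x
      linarith
    exact_mod_cast le_of_mul_le_mul_right h1 hL80
  obtain ⟨a, had⟩ : ∃ a, a = m0 - Y := ⟨_, rfl⟩
  have hac : (a : ℝ) = m0 - Y := by
    rw [had]
    exact Nat.cast_sub hYm
  have ha1 : 2 * (x : ℝ) ≤ a * L ^ (U + 8) := by
    rw [hac]
    linarith
  have ha2 : 2 ≤ a := by
    have h1 : (2 : ℝ) * L ^ (U + 8) ≤ a * L ^ (U + 8) := by linarith
    exact_mod_cast le_of_mul_le_mul_right h1 hL80
  obtain ⟨w, hw⟩ : ∃ w : ℕ → ℝ, w = fun m => ‖∑ n ∈ Finset.Ioc (m - Y) m,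
    (if n ≤ x then h n else 0)‖ ^ 2 := ⟨_, rfl⟩
  -- the trivial bound
  have htr : ∀ m, w m ≤ (Y * L ^ 2) ^ 2 := by
    intro m
    rw [hw]
    apply pow_le_pow_left₀ (norm_nonneg _)
    refine (norm_sum_le _ _).trans ?_
    calc ∑ n ∈ Finset.Ioc (m - Y) m, ‖(if n ≤ x then h n else 0 : ℂ)‖
        ≤ ∑ _n ∈ Finset.Ioc (m - Y) m, L ^ 2 := by
          refine Finset.sum_le_sum fun n _ => ?_
          split_ifs with hn
          · exact hh n hn
          · rw [norm_zero]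
            positivity
      _ = ((Finset.Ioc (m - Y) m).card : ℝ) * L ^ 2 := by
          rw [Finset.sum_const, nsmul_eq_mul]
      _ ≤ Y * L ^ 2 := by
          apply mul_le_mul_of_nonneg_right _ (by positivity)
          rw [Nat.card_Ioc]
          have : m - (m - Y) ≤ Y := by omega
          exact_mod_cast this
  -- the splitting
  have hsplit : ∑ m ∈ Finset.Icc 1 (x + Y), w m = ∑ m ∈ Finset.Ioc 0 m0, w m +
      ∑ m ∈ Finset.Ioc m0 x, w m + ∑ m ∈ Finset.Ioc x (x + Y), w m := by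
    have h1 : Finset.Icc 1 (x + Y) = Finset.Ioc 0 (x + Y) := by
      ext m
      simp only [Finset.mem_Icc, Finset.mem_Ioc]
      omega
    rw [h1, ← Finset.sum_Ioc_consecutive w (Nat.zero_le x) (Nat.le_add_right x Y),
      ← Finset.sum_Ioc_consecutive w (Nat.zero_le m0) hm0x]
  have hA : ∑ m ∈ Finset.Ioc 0 m0, w m ≤ m0 * (Y * L ^ 2) ^ 2 := by
    refine (Finset.sum_le_sum fun m _ => htr m).trans ?_
    rw [Finset.sum_const, nsmul_eq_mul, Nat.card_Ioc]
    simp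
  have hB : ∑ m ∈ Finset.Ioc x (x + Y), w m ≤ Y * (Y * L ^ 2) ^ 2 := by
    refine (Finset.sum_le_sum fun m _ => htr m).trans ?_
    rw [Finset.sum_const, nsmul_eq_mul, Nat.card_Ioc]
    simp
  have hC : ∑ m ∈ Finset.Ioc m0 x, w m ≤ 2 * x * ((Y : ℝ) ^ 2 / L ^ (U + 2)) := by
    have h1 : ∑ m ∈ Finset.Ioc m0 x, w m
        = ∑ m ∈ Finset.Ioc a (x - Y), ‖∑ n ∈ Finset.Ioc m (m + Y), h n‖ ^ 2 := by
      refine Finset.sum_nbij' (fun m => m - Y) (fun m => m + Y) ?_ ?_ ?_ ?_ ?_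
      · intro m hm
        simp only [Finset.mem_Ioc] at hm ⊢
        omega
      · intro m hm
        simp only [Finset.mem_Ioc] at hm ⊢
        omega
      · intro m hm
        simp only [Finset.mem_Ioc] at hm
        show m - Y + Y = m
        omega
      · intro m hm
        show m + Y - Y = m
        omega
      · intro m hm
        simp only [Finset.mem_Ioc] at hm
        have h2 : m - Y + Y = m := by omega
        simp only [hw, h2]
        congr 2
        refine Finset.sum_congr rfl fun n hn => ?_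
        rw [Finset.mem_Ioc] at hn
        rw [if_pos (by omega)]
    rw [h1]
    have h2 := dya (fun m => ‖∑ n ∈ Finset.Ioc m (m + Y), h n‖ ^ 2) (fun m => by positivity) a x
      ha2 ((Y : ℝ) ^ 2 / L ^ (U + 2)) (by positivity) (by
        intro x' h3 h4
        have h5 := hdy x' (by
          have h6 : (a : ℝ) ≤ 2 * x' := by exact_mod_cast h3.le
          have h7 : (a : ℝ) * L ^ (U + 8) ≤ 2 * x' * L ^ (U + 8) :=
            mul_le_mul_of_nonneg_right h6 hL80.le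
          linarith) h4
        rwa [mul_div_assoc] at h5) (x - Y) (by omega)
    refine h2.trans ?_
    apply mul_le_mul_of_nonneg_right _ (by positivity)
    have : ((x - Y : ℕ) : ℝ) ≤ x := by exact_mod_cast Nat.sub_le x Y
    linarith
  have hfin : ∑ m ∈ Finset.Icc 1 (x + Y), w m ≤ x * (Y : ℝ) ^ 2 / L ^ U := by
    rw [hsplit]
    have hL20 : 0 < L ^ (U + 2) := by positivity
    have e1 : (m0 : ℝ) * (Y * L ^ 2) ^ 2 ≤ x * ((Y : ℝ) ^ 2 / L ^ (U + 2)) := by
      rw [mul_div_assoc', le_div_iff₀ hL20]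
      have h1 : (m0 : ℝ) * L ^ (U + 6) ≤ x := by
        rwa [le_div_iff₀ hL60] at hm1
      have h2 : (m0 : ℝ) * (Y * L ^ 2) ^ 2 * L ^ (U + 2) = (m0 * L ^ (U + 6)) * (Y : ℝ) ^ 2 := by
        rw [show U + 6 = (U + 2) + 4 by ring, pow_add L (U + 2) 4]
        ring
      rw [h2]
      exact mul_le_mul_of_nonneg_right h1 (by positivity)
    have e2 : (Y : ℝ) * (Y * L ^ 2) ^ 2 ≤ x * ((Y : ℝ) ^ 2 / L ^ (U + 2)) := by
      rw [mul_div_assoc', le_div_iff₀ hL20]
      have h1 : (Y : ℝ) * L ^ (U + 6) ≤ x := by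
        have h3 : (Y : ℝ) * L ^ (U + 6) ≤ Y * L ^ (U + 8) := by
          apply mul_le_mul_of_nonneg_left _ (by positivity)
          exact pow_le_pow_right₀ (by linarith) (by omega)
        linarith
      have h2 : (Y : ℝ) * (Y * L ^ 2) ^ 2 * L ^ (U + 2) = (Y * L ^ (U + 6)) * (Y : ℝ) ^ 2 := by
        rw [show U + 6 = (U + 2) + 4 by ring, pow_add L (U + 2) 4]
        ring
      rw [h2]
      exact mul_le_mul_of_nonneg_right h1 (by positivity)
    have e3 : 4 * (x * ((Y : ℝ) ^ 2 / L ^ (U + 2))) ≤ x * (Y : ℝ) ^ 2 / L ^ U := by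
      rw [le_div_iff₀ (by positivity)]
      have h1 : (4 : ℝ) * (x * ((Y : ℝ) ^ 2 / L ^ (U + 2))) * L ^ U
          = (x * (Y : ℝ) ^ 2) * (4 / L ^ 2) := by
        rw [pow_add L U 2]
        field_simp
      rw [h1]
      apply mul_le_of_le_one_right (by positivity)
      rw [div_le_one (by positivity)]
      exact hL2
    linarith
  rw [hw] at hfin
  exact hfin

end Pool.Agent.Q95.CR
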