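import Pool.Agent.Q236.CR.Stm2
import Pool.Agent.Q95.CR.Cov0

/-!
Project CR (helper236), job COV: from windows over dyadic ranges to all windows.
-/

set_option autoImplicit false

namespace Pool.Agent.Q95.CR

open Finset Filter
open Pool.Agent.Q236.CR

theorem cov : S_COV := by
  intro U
  have h1 : ∀ᶠ y : ℝ in atTop, ‖Real.log y ^ (U + 8)‖ ≤ 1 * ‖id y‖ :=
    (Real.isLittleO_pow_log_id_atTop (n := U + 8)).bound one_pos
  have h2 : ∀ᶠ y : ℝ in atTop, 2 ≤ Real.log y := Real.tendsto_log_atTop.eventually_ge_atTop 2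
  obtain ⟨x0, hx0⟩ := Filter.eventually_atTop.1
    (tendsto_natCast_atTop_atTop.eventually ((h1.and h2).and (eventually_ge_atTop (0 : ℝ))))
  refine ⟨U + 8, x0, ?_⟩
  intro x hx h Y hh hY hYx hdy
  obtain ⟨⟨h3, h4⟩, h5⟩ := hx0 x hx
  have h6 : Real.log x ^ (U + 8) ≤ x := by
    rw [one_mul, id, Real.norm_eq_abs, Real.norm_eq_abs, abs_of_nonneg h5] at h3
    exact (le_abs_self _).trans h3
  have h7 := cov0 U x h Y (Real.log x) h4 h6 hh hYx hdy
  exact h7

end Pool.Agent.Q95.CR
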