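import Pool.Agent.Q179.CR.Stm

/-!
# Rotation of closed walks, and the edges of closed walks without repeated vertices
-/

set_option autoImplicit false

namespace Pool.Agent.Q95.CR

open Set Cardinal Pool.Agent.Q179.CR

universe u

theorem carcs_rotate {V : Type u} (l : List V) (k : ℕ) :
    carcs (l.rotate k) = (carcs l).rotate k := by
  rw [carcs_eq_zip, carcs_eq_zip]
  unfold List.zip
  rw [List.zipWith_rotate_distrib _ _ _ _ (by simp)]
  rw [List.rotate_rotate, List.rotate_rotate, add_comm]

/-- Rotation of a closed walk. -/
theorem t_ROT : S_ROT.{u} := by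
  intro V l a ha
  obtain ⟨m₁, m₂, rfl⟩ := List.append_of_mem ha
  have hr : (m₁ ++ a :: m₂).rotate m₁.length = a :: (m₂ ++ m₁) := by
    rw [List.rotate_append_length_eq]
    rfl
  refine ⟨m₂ ++ m₁, ?_, ?_⟩
  · rw [← hr]
    exact List.rotate_perm _ _
  · rw [← hr, carcs_rotate]
    exact List.rotate_perm _ _

theorem length_medges {V : Type u} (l : List V) : (medges l).length = l.length := by
  unfold medges
  rw [carcs_eq_zip]
  simp

theorem medges_get {V : Type u} (l : List V) (i : ℕ) (hi : i < l.length) :
    (medges l)[i]'(by rw [length_medges]; exact hi) =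
      s(l[i], l[(i + 1) % l.length]'(Nat.mod_lt _ (by omega))) := by
  have h : medges l = (l.zip (l.rotate 1)).map fun p => s(p.1, p.2) := by
    unfold medges
    rw [carcs_eq_zip]
  simp only [h, List.getElem_map, List.getElem_zip, List.getElem_rotate]

/-- A closed walk through at least three distinct vertices has distinct edges, none of them is a
loop. -/
theorem t_NODUP : S_NODUP.{u} := by
  intro V l hl h3
  have hn : 0 < l.length := by omega
  have key : ∀ i, i < l.length → (i + 1) % l.length = i + 1 ∧ i + 1 < l.length ∨
      (i + 1) % l.length = 0 ∧ i + 1 = l.length := by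
    intro i hi
    rcases Nat.lt_or_ge (i + 1) l.length with h | h
    · exact Or.inl ⟨Nat.mod_eq_of_lt h, h⟩
    · have : i + 1 = l.length := by omega
      exact Or.inr ⟨by rw [this, Nat.mod_self], this⟩
  refine ⟨?_, ?_, ?_, ?_⟩
  · rw [List.nodup_iff_injective_get]
    rintro ⟨i, hi⟩ ⟨j, hj⟩ hij
    have hi' : i < l.length := by rwa [length_medges] at hi
    have hj' : j < l.length := by rwa [length_medges] at hj
    simp only [List.get_eq_getElem] at hij
    rw [medges_get l i hi', medges_get l j hj', Sym2.eq_iff] at hij
    rcases hij with ⟨h1, -⟩ | ⟨h1, h2⟩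
    · have := (List.Nodup.getElem_inj_iff hl).1 h1
      subst this
      rfl
    · have e1 := (List.Nodup.getElem_inj_iff hl).1 h1
      have e2 := (List.Nodup.getElem_inj_iff hl).1 h2
      exfalso
      rcases key i hi' with h | h <;> rcases key j hj' with h' | h' <;> omega
  · intro e he
    obtain ⟨i, hi, rfl⟩ := List.getElem_of_mem he
    have hi' : i < l.length := by rwa [length_medges] at hi
    rw [medges_get l i hi']
    simp only [Sym2.mk_isDiag_iff]
    intro h
    have e1 := (List.Nodup.getElem_inj_iff hl).1 h
    rcases key i hi' with h | h <;> omega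
  · intro e he v hv
    obtain ⟨i, hi, rfl⟩ := List.getElem_of_mem he
    have hi' : i < l.length := by rwa [length_medges] at hi
    rw [medges_get l i hi'] at hv
    rcases Sym2.mem_iff.1 hv with rfl | rfl
    · exact List.getElem_mem _
    · exact List.getElem_mem _
  · intro v hv
    obtain ⟨i, hi, rfl⟩ := List.getElem_of_mem hv
    refine ⟨(medges l)[i]'(by rw [length_medges]; exact hi), List.getElem_mem _, ?_⟩
    rw [medges_get l i hi]
    exact Sym2.mem_mk_left _ _

end Pool.Agent.Q95.CR
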